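import Mathlib
import Pool.Agent.helper45.OC5

/-!
# MP_64f3b0_co, Q2: the symmetric decomposition need not be interlacing

A two-dimensional simplicial complex which is Cohen-Macaulay* over every field, and for which the
symmetric decomposition `(a, b)` of the `h`-polynomial of its barycentric subdivision is
nonnegative and real-rooted, but `b` does not interlace `a`.
-/

namespace Pool.Agent.Results.MP_64f3b0_co.NotInterlacing

open Polynomial Pool.Agent.helper45.OC

universe u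

/-- The dimension of the polyhedral complex `L` (equivalently, of its barycentric subdivision) is
`n - 1`: the longest chains of nonempty cells have `n` elements. -/
def HasDim (n : ℕ) {N : ℕ} (L : Set (Set (Fin N → ℝ))) : Prop :=
  Nonempty (Chain (Cells L) n) ∧ IsEmpty (Chain (Cells L) (n + 1))

/-- `F` is a facet (inclusion-maximal cell) of `L`. -/
def IsFacet {N : ℕ} (L : Set (Set (Fin N → ℝ))) (F : Set (Fin N → ℝ)) : Prop :=
  F ∈ L ∧ ∀ G ∈ L, F ⊆ G → G = F

/-- `L` is Cohen-Macaulay* over `k`, of dimension `n - 1`: `L` and all complexes obtained from `L`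
by deleting one facet are Cohen-Macaulay over `k` and of dimension `n - 1`. -/
def IsCMStar (k : Type*) [Field k] (n : ℕ) {N : ℕ} (L : Set (Set (Fin N → ℝ))) : Prop :=
  (CohenMacaulay k (Cells L) ∧ HasDim n L) ∧
    ∀ F, IsFacet L F → CohenMacaulay k (Cells (L \ {F})) ∧ HasDim n (L \ {F})

/-- The `h`-polynomial of the barycentric subdivision of an `(n - 1)`-dimensional complex `L`. -/
noncomputable def hSd (n : ℕ) {N : ℕ} (L : Set (Set (Fin N → ℝ))) : ℝ[X] :=
  ∑ i ∈ Finset.range (n + 1),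
    C (Nat.card (Chain (Cells L) i) : ℝ) * X ^ i * (1 - X) ^ (n - i)

/-- `p = a + x b` is the symmetric decomposition of `p` with respect to `n ≥ 1`: the polynomials
`a` and `b` satisfy `a(x) = x ^ n a(1 / x)` and `b(x) = x ^ (n - 1) b(1 / x)`. -/
def IsSymmDecomp (n : ℕ) (p a b : ℝ[X]) : Prop :=
  p = a + X * b ∧
    (a.natDegree ≤ n ∧ ∀ i ≤ n, a.coeff i = a.coeff (n - i)) ∧
    (b.natDegree ≤ n - 1 ∧ ∀ i ≤ n - 1, b.coeff i = b.coeff (n - 1 - i))

/-- All roots of `p` are real, or `p = 0`. -/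
def RealRooted (p : ℝ[X]) : Prop := p = 0 ∨ Multiset.card p.roots = p.natDegree

/-- The list of real roots of `p` with multiplicities, in weakly decreasing order. -/
noncomputable def rootList (p : ℝ[X]) : List ℝ := p.roots.sort (fun x y => y ≤ x)

/-- `b` interlaces `a`: if the roots of `b` are `β₁ ≥ β₂ ≥ ⋯` and those of `a` are
`α₁ ≥ α₂ ≥ ⋯`, then `⋯ ≤ β₂ ≤ α₂ ≤ β₁ ≤ α₁`; or one of the two is zero. -/
def Interlaces (b a : ℝ[X]) : Prop :=
  b = 0 ∨ a = 0 ∨
    ((∀ (i : ℕ) (hi : i < (rootList b).length) (hj : i < (rootList a).length),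
        (rootList b)[i] ≤ (rootList a)[i]) ∧
      ∀ (i : ℕ) (hi : i < (rootList b).length) (hj : i + 1 < (rootList a).length),
        (rootList a)[i + 1] ≤ (rootList b)[i])

lemma cx_diff {l l' : List ℕ} {t : ℕ} (ht : 0 < t) (hl : okList l = true)
    (htl : t ∈ l) (h1 : ∀ m ∈ l', m ∈ l ∧ m ≠ t) (h2 : ∀ m ∈ l, m = t ∨ m ∈ l') :
    cx l \ {face (bits t)} = cx l' := by
  have ht64 := (okList_pos hl htl).2
  ext P
  constructor
  · rintro ⟨⟨m, hm, rfl⟩, hne⟩
    rcases List.mem_cons.mp hm with rfl | hm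
    · exact ⟨0, by simp, rfl⟩
    · rcases h2 m hm with rfl | h
      · exact absurd rfl hne
      · exact ⟨m, List.mem_cons_of_mem _ h, rfl⟩
  · rintro ⟨m, hm, rfl⟩
    have hmt : m ∈ 0 :: l ∧ m ≠ t := by
      rcases List.mem_cons.mp hm with rfl | hm
      · exact ⟨by simp, by omega⟩
      · exact ⟨List.mem_cons_of_mem _ (h1 m hm).1, (h1 m hm).2⟩
    refine ⟨⟨m, hmt.1, rfl⟩, ?_⟩
    intro h
    rw [Set.mem_singleton_iff, face_inj] at h
    exact hmt.2 (bits_inj (okList_lt hl hmt.1) ht64 h)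

lemma hasDim_three {l : List ℕ} (h : cmCheck l = true) (h' : (chains3 l).length ≠ 0) :
    HasDim 3 (cx l) := by
  refine ⟨?_, isEmpty_chain_four h⟩
  have hok : okList l = true := by
    simp only [cmCheck, Bool.and_eq_true] at h
    exact h.1.1.1.1.1
  obtain ⟨⟨a, b, c⟩, hp⟩ := List.exists_mem_of_length_pos (Nat.pos_of_ne_zero h')
  obtain ⟨ha, hb, hc, hab, hbc⟩ := mem_chains3.mp hp
  refine ⟨ch3 (cell hok a ha) (cell hok b hb) (cell hok c hc) ?_ ?_⟩
  · rw [lt_iff_code hok, code_cell, code_cell]; exact hab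
  · rw [lt_iff_code hok, code_cell, code_cell]; exact hbc

lemma isCMStar_K (k : Type u) [Field k] : IsCMStar k 3 (cx K) := by
  refine ⟨⟨cohenMacaulay_of_check K K_cm, hasDim_three K_cm (by decide +kernel)⟩, ?_⟩
  intro F ⟨⟨t, ht, hFt⟩, hmax⟩
  subst hFt
  have ht64 := okList_lt K_ok ht
  -- `t` is a maximal mask
  have hK1 : (1 : ℕ) ∈ K := by decide +kernel
  have htK : t ∈ K := by
    rcases List.mem_cons.mp ht with rfl | h
    · exfalso
      have h1 := hmax (face (bits 1)) ⟨1, List.mem_cons_of_mem _ hK1, rfl⟩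
        (by rw [bits_zero, face_empty]; exact Set.empty_subset _)
      rw [face_inj] at h1
      have := bits_inj (by norm_num) (by norm_num) h1
      omega
    · exact h
  have hnot : K.any (fun m' => ltm t m') = false := by
    rw [List.any_eq_false]
    intro m' hm' hlt
    have hm64 := (okList_pos K_ok hm').2
    rw [ltm_iff ht64 hm64] at hlt
    have h1 := hmax (face (bits m')) ⟨m', List.mem_cons_of_mem _ hm', rfl⟩
      (face_subset_iff.mpr hlt.subset)
    rw [face_inj] at h1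
    rw [h1] at hlt
    exact lt_irrefl _ hlt
  have h1 := D_all
  rw [List.all_eq_true] at h1
  have h2 := h1 t htK
  rw [hnot, Bool.false_or, List.any_eq_true] at h2
  obtain ⟨p, hpD, hp⟩ := h2
  rw [beq_iff_eq] at hp
  have h3 := D_spec
  have h4 := D_cm
  rw [List.all_eq_true] at h3 h4
  have h5 := h3 p hpD
  have h6 := h4 p hpD
  simp only [Bool.and_eq_true, List.all_eq_true, List.contains_iff_mem, bne_iff_ne,
    Bool.or_eq_true, beq_iff_eq, hp] at h5
  obtain ⟨⟨⟨_, h7⟩, h8⟩, h9⟩ := h5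
  rw [cx_diff (okList_pos K_ok htK).1 K_ok htK h7 h8]
  exact ⟨cohenMacaulay_of_check _ h6, hasDim_three h6 h9⟩

lemma hSd_K : hSd 3 (cx K) = 1 + 27 * X + 31 * X ^ 2 + X ^ 3 := by
  unfold hSd
  simp only [Finset.sum_range_succ, Finset.sum_range_zero, zero_add]
  rw [card_chain_zero, card_chain_one K_ok, card_chain_two K_ok, card_chain_three K_ok, K_card1,
    K_card2, K_card3]
  have h30 : (C ((30 : ℕ) : ℝ) : ℝ[X]) = 30 := by rw [C_eq_natCast]; rfl
  have h88 : (C ((88 : ℕ) : ℝ) : ℝ[X]) = 88 := by rw [C_eq_natCast]; rfl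
  have h60 : (C ((60 : ℕ) : ℝ) : ℝ[X]) = 60 := by rw [C_eq_natCast]; rfl
  have h1 : (C ((1 : ℕ) : ℝ) : ℝ[X]) = 1 := by simp
  rw [h30, h88, h60, h1]
  norm_num
  ring

lemma a_eq : (1 + 27 * X + 27 * X ^ 2 + X ^ 3 : ℝ[X]) =
    (({-1, -13 + Real.sqrt 168, -13 - Real.sqrt 168} : Multiset ℝ).map (fun r => X - C r)).prod := by
  have hs : (C (Real.sqrt 168) : ℝ[X]) * C (Real.sqrt 168) = 168 := by
    rw [← C_mul, Real.mul_self_sqrt (by norm_num)]
    exact map_ofNat C 168
  simp only [Multiset.insert_eq_cons, Multiset.map_cons, Multiset.map_singleton,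
    Multiset.prod_cons, Multiset.prod_singleton, C_add, C_sub, C_neg, C_1]
  have h13 : (C 13 : ℝ[X]) = 13 := map_ofNat C 13
  rw [h13]
  linear_combination (X + 1) * hs

lemma four_X : (4 * X : ℝ[X]) = C 4 * X := by rw [show (C 4 : ℝ[X]) = 4 from map_ofNat C 4]

lemma cubic : (1 + 27 * X + 27 * X ^ 2 + X ^ 3 : ℝ[X]) =
    C 1 + C 27 * X + C 27 * X ^ 2 + C 1 * X ^ 3 := by
  rw [show (C 27 : ℝ[X]) = 27 from map_ofNat C 27]; simp

lemma roots_a : (1 + 27 * X + 27 * X ^ 2 + X ^ 3 : ℝ[X]).roots =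
    {-1, -13 + Real.sqrt 168, -13 - Real.sqrt 168} := by
  rw [a_eq, roots_multiset_prod_X_sub_C]

lemma natDegree_a : (1 + 27 * X + 27 * X ^ 2 + X ^ 3 : ℝ[X]).natDegree = 3 := by
  rw [a_eq, natDegree_multiset_prod_X_sub_C_eq_card]
  rfl

lemma roots_b : (4 * X : ℝ[X]).roots = {0} := by
  rw [four_X, roots_C_mul _ (by norm_num), roots_X]

lemma natDegree_b : (4 * X : ℝ[X]).natDegree = 1 := by
  rw [four_X, natDegree_C_mul (by norm_num), natDegree_X]

lemma mem_rootList {p : ℝ[X]} {x : ℝ} : x ∈ rootList p ↔ x ∈ p.roots := by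
  unfold rootList
  rw [Multiset.mem_sort]

lemma length_rootList (p : ℝ[X]) : (rootList p).length = Multiset.card p.roots := by
  unfold rootList
  rw [Multiset.length_sort]

lemma not_interlaces : ¬ Interlaces (4 * X : ℝ[X]) (1 + 27 * X + 27 * X ^ 2 + X ^ 3) := by
  rintro (h | h | ⟨h, _⟩)
  · have := natDegree_b
    rw [h] at this
    simp at this
  · have := natDegree_a
    rw [h] at this
    simp at this
  · have hb : 0 < (rootList (4 * X : ℝ[X])).length := by
      rw [length_rootList, roots_b]; simp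
    have ha : 0 < (rootList (1 + 27 * X + 27 * X ^ 2 + X ^ 3 : ℝ[X])).length := by
      rw [length_rootList, roots_a]; simp
    have h1 := h 0 hb ha
    have h2 : (rootList (4 * X : ℝ[X]))[0] ∈ (4 * X : ℝ[X]).roots :=
      mem_rootList.mp (List.getElem_mem _)
    rw [roots_b, Multiset.mem_singleton] at h2
    rw [h2] at h1
    have h3 : (rootList (1 + 27 * X + 27 * X ^ 2 + X ^ 3 : ℝ[X]))[0] ∈
        (1 + 27 * X + 27 * X ^ 2 + X ^ 3 : ℝ[X]).roots := mem_rootList.mp (List.getElem_mem _)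
    have h4 := (mem_roots'.mp h3).2
    simp only [IsRoot.def, eval_add, eval_one, eval_mul, eval_ofNat, eval_X, eval_pow] at h4
    generalize (rootList (1 + 27 * X + 27 * X ^ 2 + X ^ 3 : ℝ[X]))[0] = r at h1 h4
    nlinarith [pow_nonneg h1 3, pow_nonneg h1 2]

lemma symmDecomp_unique {p a b a' b' : ℝ[X]} (h : IsSymmDecomp 3 p a b)
    (h' : IsSymmDecomp 3 p a' b') : a' = a ∧ b' = b := by
  obtain ⟨h1, ⟨h2, h3⟩, ⟨h4, h5⟩⟩ := h
  obtain ⟨g1, ⟨g2, g3⟩, ⟨g4, g5⟩⟩ := h'
  have hc : ∀ i, p.coeff (i + 1) = a.coeff (i + 1) + b.coeff i := by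
    intro i; rw [h1, coeff_add, coeff_X_mul]
  have gc : ∀ i, p.coeff (i + 1) = a'.coeff (i + 1) + b'.coeff i := by
    intro i; rw [g1, coeff_add, coeff_X_mul]
  have hc0 : p.coeff 0 = a.coeff 0 := by
    rw [h1, coeff_add, coeff_X_mul_zero, add_zero]
  have gc0 : p.coeff 0 = a'.coeff 0 := by
    rw [g1, coeff_add, coeff_X_mul_zero, add_zero]
  have a03 := h3 0 (by norm_num)
  have a12 := h3 1 (by norm_num)
  have b02 := h5 0 (by norm_num)
  have a03' := g3 0 (by norm_num)
  have a12' := g3 1 (by norm_num)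
  have b02' := g5 0 (by norm_num)
  have e1 := hc 0
  have e2 := hc 1
  have e3 := hc 2
  have f1 := gc 0
  have f2 := gc 1
  have f3 := gc 2
  norm_num at a03 a12 b02 a03' a12' b02' e1 e2 e3 f1 f2 f3
  constructor
  · ext i
    by_cases hi : i ≤ 3
    · interval_cases i
      · linarith
      · linarith
      · linarith
      · linarith
    · rw [coeff_eq_zero_of_natDegree_lt (by omega), coeff_eq_zero_of_natDegree_lt (by omega)]
  · ext i
    by_cases hi : i ≤ 2
    · interval_cases i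
      · linarith
      · linarith
      · linarith
    · rw [coeff_eq_zero_of_natDegree_lt (by omega), coeff_eq_zero_of_natDegree_lt (by omega)]

lemma isSymmDecomp_K : IsSymmDecomp 3 (hSd 3 (cx K)) (1 + 27 * X + 27 * X ^ 2 + X ^ 3) (4 * X) := by
  rw [hSd_K]
  refine ⟨by ring, ⟨natDegree_a.le, ?_⟩, ⟨by rw [natDegree_b]; norm_num, ?_⟩⟩
  · intro i hi
    rw [cubic]
    interval_cases i <;> simp [coeff_X, coeff_one, coeff_X_pow, coeff_C]
  · intro i hi
    rw [four_X]
    norm_num at hi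
    interval_cases i <;> simp [coeff_X]

lemma coeff_a_nonneg (i : ℕ) : 0 ≤ (1 + 27 * X + 27 * X ^ 2 + X ^ 3 : ℝ[X]).coeff i := by
  rw [cubic]
  simp only [coeff_add, coeff_C_mul, coeff_X_pow, coeff_X, coeff_C]
  split_ifs <;> norm_num

lemma coeff_b_nonneg (i : ℕ) : 0 ≤ (4 * X : ℝ[X]).coeff i := by
  rw [four_X]
  simp only [coeff_C_mul, coeff_X]
  split_ifs <;> norm_num

/-- **Negative answer to Q2 of MP_64f3b0_co.** There is a polyhedral (in fact simplicial) complex
`L` in `ℝ⁶`, of dimension `2 = 3 - 1`, which is Cohen-Macaulay* over every field, such that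
`h(sd L, x) = 1 + 27 x + 31 x² + x³` has the (unique) symmetric decomposition
`a = 1 + 27 x + 27 x² + x³`, `b = 4 x` with respect to `3`; it is nonnegative and real-rooted, but
`b` does not interlace `a`. -/
theorem result : ∃ L : Set (Set (Fin 6 → ℝ)),
    IsPolyhedralComplex L ∧ (∀ P ∈ L, IsSimplex P) ∧
    (∀ (k : Type u) [Field k], IsCMStar k 3 L) ∧
    hSd 3 L = 1 + 27 * X + 31 * X ^ 2 + X ^ 3 ∧
    ∃ a b : ℝ[X], a = 1 + 27 * X + 27 * X ^ 2 + X ^ 3 ∧ b = 4 * X ∧
      IsSymmDecomp 3 (hSd 3 L) a b ∧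
      (∀ a' b' : ℝ[X], IsSymmDecomp 3 (hSd 3 L) a' b' → a' = a ∧ b' = b) ∧
      (∀ i, 0 ≤ a.coeff i) ∧ (∀ i, 0 ≤ b.coeff i) ∧
      RealRooted a ∧ RealRooted b ∧ ¬ Interlaces b a := by
  refine ⟨cx K, isPolyhedralComplex_cx K K_closed, ?_, fun k _ => isCMStar_K k, hSd_K,
    _, _, rfl, rfl, isSymmDecomp_K, fun a' b' h => symmDecomp_unique isSymmDecomp_K h,
    coeff_a_nonneg, coeff_b_nonneg, Or.inr ?_, Or.inr ?_, not_interlaces⟩
  · rintro P ⟨m, _, rfl⟩
    exact face_isSimplex _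
  · rw [roots_a, natDegree_a]; rfl
  · rw [roots_b, natDegree_b]; rfl

end Pool.Agent.Results.MP_64f3b0_co.NotInterlacing
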