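import Mathlib
import Pool.Agent.SR.M9
import Pool.Agent.SR.M10

/-!
# MP_64f3b0_co, Q1: the symmetric decomposition need not be real-rooted

A polyhedral complex of dimension `33` which is Cohen-Macaulay* over every field and for which, in
the symmetric decomposition `(a, b)` of the `h`-polynomial of its barycentric subdivision with
respect to `34`, the polynomial `a` has nonnegative coefficients but is not real-rooted.

The complex consists of the `33`-skeleton of the product of a simplex with `34` vertices and a
`200`-dimensional cube, and of `10 ^ 91` cones over one copy of the boundary of that simplex.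
-/

namespace Pool.Agent.Results.MP_64f3b0_co.NotRealRooted

open Polynomial Pool.Agent.helper45.OC Pool.Agent.SR

universe u

/-- **Negative answer to Q1 of MP_64f3b0_co.** There is a polyhedral complex `L`, of dimension
`33 = 34 - 1`, which is Cohen-Macaulay* over every field, such that in the (unique) symmetric
decomposition `a + x b` of `h(sd L, x)` with respect to `34` the polynomial `a` has nonnegative
coefficients and is not real-rooted. -/
theorem result : ∃ (N : ℕ) (L : Set (Set (Fin N → ℝ))), IsPolyhedralComplex L ∧
    (∀ (k : Type u) [Field k], IsCMStar k 34 L) ∧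
    ∃ a b : ℝ[X], IsSymmDecomp 34 (hSd 34 L) a b ∧
      (∀ a' b' : ℝ[X], IsSymmDecomp 34 (hSd 34 L) a' b' → a' = a ∧ b' = b) ∧
      (∀ i, 0 ≤ a.coeff i) ∧ ¬ RealRooted a :=
  main_general (n := 34) (K := 10 ^ 91) (M := 200) (by norm_num) (by norm_num)
    (Nat.one_le_pow _ _ (by norm_num)) num0 num_pos num

end Pool.Agent.Results.MP_64f3b0_co.NotRealRooted
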